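import Pool.Agent.Run7.h586.CoxWalk

/-!
# Central extensions of Coxeter groups by a sign (MP_07fa45_al, Q1)

For every Coxeter group and every sign choice the sequence `1 → ℤ/2 → W' → W → 1` is exact.
-/

set_option autoImplicit false

namespace Pool.Agent.Results.MP_07fa45_al.Exactness

open Run7.h586.CoxPlane
open Pool.Agent.Helper741 (alt alt_mul_two)

universe u v

variable {B : Type u} {W : Type v} [Group W]

/-- The set `𝔐` of pairs of distinct generators `s, t` with `m_{s,t} < ∞` (`0` stands for `∞` in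
Mathlib's Coxeter matrices). -/
def InM (M : CoxeterMatrix B) (s t : B) : Prop := s ≠ t ∧ M s t ≠ 0

/-- `(s,t) ∼ (s',t')`: some `g ∈ W` conjugates `s` to `s'` and `t` to `t'`. -/
def Equivt {M : CoxeterMatrix B} (cs : CoxeterSystem M W) (s t s' t' : B) : Prop :=
  ∃ g : W, g * cs.simple s * g⁻¹ = cs.simple s' ∧ g * cs.simple t * g⁻¹ = cs.simple t'

/-- A sign choice: signs `c s t` for `(s,t) ∈ 𝔐` (values elsewhere play no role), constant on the
classes of `∼` and symmetric. -/
structure IsSignChoice {M : CoxeterMatrix B} (cs : CoxeterSystem M W) (c : B → B → ℤˣ) :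
    Prop where
  conj : ∀ s t s' t', InM M s t → InM M s' t' → Equivt cs s t s' t' → c s t = c s' t'
  symm : ∀ s t, InM M s t → c s t = c t s

open FreeGroup in
/-- The relators of `W'`; `some s` is the generator `s`, and `none` is the generator `q`. -/
def rels (M : CoxeterMatrix B) (c : B → B → ℤˣ) : Set (FreeGroup (Option B)) :=
  {r | (∃ s : B, r = of (some s) ^ 2) ∨ r = of none ^ 2 ∨
    (∃ s : B, r = of none * of (some s) * (of (some s) * of none)⁻¹) ∨
    (∃ s t : B, InM M s t ∧ c s t = 1 ∧ r = (of (some s) * of (some t)) ^ M s t) ∨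
    (∃ s t : B, InM M s t ∧ c s t = -1 ∧ r = (of (some s) * of (some t)) ^ M s t * (of none)⁻¹)}

/-- The group `W'`. -/
abbrev WP (M : CoxeterMatrix B) (c : B → B → ℤˣ) : Type u := PresentedGroup (rels M c)

/-- The generator `s` of `W'`. -/
def gen (M : CoxeterMatrix B) (c : B → B → ℤˣ) (s : B) : WP M c := PresentedGroup.of (some s)

/-- The generator `q` of `W'`. -/
def qq (M : CoxeterMatrix B) (c : B → B → ℤˣ) : WP M c := PresentedGroup.of none

section basics

variable {M : CoxeterMatrix B} {c : B → B → ℤˣ}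

lemma gen_sq (s : B) : gen M c s * gen M c s = 1 := by
  have h : (PresentedGroup.mk (rels M c)) (FreeGroup.of (some s) ^ 2) = 1 :=
    PresentedGroup.one_of_mem (Or.inl ⟨s, rfl⟩)
  rw [map_pow, pow_two] at h
  exact h

lemma qq_sq : qq M c * qq M c = 1 := by
  have h : (PresentedGroup.mk (rels M c)) (FreeGroup.of none ^ 2) = 1 :=
    PresentedGroup.one_of_mem (Or.inr (Or.inl rfl))
  rw [map_pow, pow_two] at h
  exact h

lemma qq_comm (s : B) : qq M c * gen M c s = gen M c s * qq M c := by
  have h : (PresentedGroup.mk (rels M c))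
      (FreeGroup.of none * FreeGroup.of (some s) *
        (FreeGroup.of (some s) * FreeGroup.of none)⁻¹) = 1 :=
    PresentedGroup.one_of_mem (Or.inr (Or.inr (Or.inl ⟨s, rfl⟩)))
  rw [map_mul, map_inv, mul_inv_eq_one, map_mul, map_mul] at h
  exact h

lemma gen_pow_one {s t : B} (h : InM M s t) (hc : c s t = 1) :
    (gen M c s * gen M c t) ^ M s t = 1 := by
  have h : (PresentedGroup.mk (rels M c))
      ((FreeGroup.of (some s) * FreeGroup.of (some t)) ^ M s t) = 1 :=
    PresentedGroup.one_of_mem (Or.inr (Or.inr (Or.inr (Or.inl ⟨s, t, h, hc, rfl⟩))))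
  rw [map_pow, map_mul] at h
  exact h

lemma gen_pow_neg {s t : B} (h : InM M s t) (hc : c s t = -1) :
    (gen M c s * gen M c t) ^ M s t = qq M c := by
  have h : (PresentedGroup.mk (rels M c))
      ((FreeGroup.of (some s) * FreeGroup.of (some t)) ^ M s t * (FreeGroup.of none)⁻¹) = 1 :=
    PresentedGroup.one_of_mem (Or.inr (Or.inr (Or.inr (Or.inr ⟨s, t, h, hc, rfl⟩))))
  rw [map_mul, map_inv, mul_inv_eq_one, map_pow, map_mul] at h
  exact h

/-- Universal property of `W'`. -/
def liftWP {G : Type*} [Group G] (f : B → G) (z : G) (h1 : ∀ s, f s * f s = 1) (h2 : z * z = 1)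
    (h3 : ∀ s, z * f s = f s * z)
    (h4 : ∀ s t, InM M s t → c s t = 1 → (f s * f t) ^ M s t = 1)
    (h5 : ∀ s t, InM M s t → c s t = -1 → (f s * f t) ^ M s t = z) : WP M c →* G :=
  PresentedGroup.toGroup (f := fun o : Option B => o.elim z f) (by
    rintro r (⟨s, rfl⟩ | rfl | ⟨s, rfl⟩ | ⟨s, t, hM, hc, rfl⟩ | ⟨s, t, hM, hc, rfl⟩)
    · simp [pow_two, h1]
    · simp [pow_two, h2]
    · simp only [map_mul, map_inv, FreeGroup.lift_apply_of, Option.elim_none, Option.elim_some]
      rw [h3 s, mul_inv_cancel]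
    · simpa using h4 s t hM hc
    · simp only [map_mul, map_inv, map_pow, FreeGroup.lift_apply_of, Option.elim_none,
        Option.elim_some]
      rw [h5 s t hM hc, mul_inv_cancel])

@[simp] lemma liftWP_gen {G : Type*} [Group G] (f : B → G) (z : G) (h1 : ∀ s, f s * f s = 1)
    (h2 : z * z = 1) (h3 : ∀ s, z * f s = f s * z)
    (h4 : ∀ s t, InM M s t → c s t = 1 → (f s * f t) ^ M s t = 1)
    (h5 : ∀ s t, InM M s t → c s t = -1 → (f s * f t) ^ M s t = z) (s : B) :
    liftWP f z h1 h2 h3 h4 h5 (gen M c s) = f s := by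
  simp [liftWP, gen]

@[simp] lemma liftWP_qq {G : Type*} [Group G] (f : B → G) (z : G) (h1 : ∀ s, f s * f s = 1)
    (h2 : z * z = 1) (h3 : ∀ s, z * f s = f s * z)
    (h4 : ∀ s t, InM M s t → c s t = 1 → (f s * f t) ^ M s t = 1)
    (h5 : ∀ s t, InM M s t → c s t = -1 → (f s * f t) ^ M s t = z) :
    liftWP f z h1 h2 h3 h4 h5 (qq M c) = z := by
  simp [liftWP, qq]

lemma WP_hom_ext {G : Type*} [Group G] {f g : WP M c →* G} (h : ∀ s, f (gen M c s) = g (gen M c s))
    (hq : f (qq M c) = g (qq M c)) : f = g := by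
  apply PresentedGroup.ext
  rintro (_ | s)
  · exact hq
  · exact h s

/-- `q` is central. -/
lemma qq_central (w : WP M c) : qq M c * w = w * qq M c := by
  have hw : w ∈ Subgroup.closure (Set.range (PresentedGroup.of (rels := rels M c))) := by
    rw [PresentedGroup.closure_range_of]; trivial
  induction hw using Subgroup.closure_induction with
  | mem x hx =>
    obtain ⟨o, rfl⟩ := hx
    rcases o with _ | s
    · rfl
    · exact qq_comm s
  | one => simp
  | mul x y _ _ hx hy => rw [← mul_assoc, hx, mul_assoc, hy, mul_assoc]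
  | inv x _ hx =>
    have : x⁻¹ * (qq M c * x) * x⁻¹ = x⁻¹ * (x * qq M c) * x⁻¹ := by rw [hx]
    simpa [mul_assoc] using this.symm

end basics

section perm

variable {M : CoxeterMatrix B} (cs : CoxeterSystem M W)

lemma zmod2_add_self (z : ZMod 2) : z + z = 0 := by revert z; decide

/-- The permutation of `W × ℤ/2` attached to a generator. -/
noncomputable def pmap (X : Set (Set W)) (a : Set W → W) (i : B) : Equiv.Perm (W × ZMod 2) where
  toFun p := (p.1 * cs.simple i, p.2 + kap cs X a p.1 i)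
  invFun p := (p.1 * cs.simple i, p.2 + kap cs X a p.1 i)
  left_inv := by
    rintro ⟨x, e⟩
    simp only
    rw [cs.simple_mul_simple_cancel_right, kap_symm, add_assoc, zmod2_add_self, add_zero]
  right_inv := by
    rintro ⟨x, e⟩
    simp only
    rw [cs.simple_mul_simple_cancel_right, kap_symm, add_assoc, zmod2_add_self, add_zero]

/-- The permutation of `W × ℤ/2` attached to `q`. -/
def qmap (W : Type*) : Equiv.Perm (W × ZMod 2) where
  toFun p := (p.1, p.2 + 1)
  invFun p := (p.1, p.2 + 1)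
  left_inv := by
    rintro ⟨x, e⟩
    simp only
    rw [add_assoc, zmod2_add_self, add_zero]
  right_inv := by
    rintro ⟨x, e⟩
    simp only
    rw [add_assoc, zmod2_add_self, add_zero]

variable {cs}

lemma pmap_sq (X : Set (Set W)) (a : Set W → W) (i : B) : pmap cs X a i * pmap cs X a i = 1 := by
  ext1 p
  exact (pmap cs X a i).left_inv p

omit [Group W] in
lemma qmap_sq : qmap W * qmap W = 1 := by
  ext1 p
  exact (qmap W).left_inv p

lemma qmap_comm (X : Set (Set W)) (a : Set W → W) (i : B) :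
    qmap W * pmap cs X a i = pmap cs X a i * qmap W := by
  ext1 p
  simp only [Equiv.Perm.mul_apply, qmap, pmap, Equiv.coe_fn_mk]
  rw [add_right_comm]

lemma pmap_pow (X : Set (Set W)) (a : Set W → W) (s t : B) (n : ℕ) (x : W) (e : ZMod 2) :
    ((pmap cs X a s * pmap cs X a t) ^ n) (x, e) = (ps cs x t s (2 * n),
      e + ∑ j ∈ Finset.range (2 * n), kap cs X a (ps cs x t s j) (lt t s j)) := by
  induction n with
  | zero => simp [ps]
  | succ n ih =>
    rw [pow_succ', Equiv.Perm.mul_apply, ih]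
    have e1 : 2 * (n + 1) = (2 * n + 1) + 1 := by ring
    have l1 : lt t s (2 * n) = t := by simp [lt]
    have l2 : lt t s (2 * n + 1) = s := by simp [lt]
    rw [e1, Finset.sum_range_succ, Finset.sum_range_succ, ps_succ, ps_succ, l1, l2]
    simp only [Equiv.Perm.mul_apply, pmap, Equiv.coe_fn_mk]
    rw [add_assoc, add_assoc, add_assoc]

/-- The planes of the negative pairs. -/
def XX (cs : CoxeterSystem M W) (c : B → B → ℤˣ) : Set (Set W) :=
  {R | ∃ (x : W) (s t : B), InM M s t ∧ c s t = -1 ∧ R = RS cs x s t}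

lemma mem_XX {c : B → B → ℤˣ} (hc : IsSignChoice cs c) {x : W} {s t : B} (h : InM M s t) :
    RS cs x t s ∈ XX cs c ↔ c s t = -1 := by
  constructor
  · rintro ⟨x', s', t', h', hc', he⟩
    have hts : InM M t s := ⟨h.1.symm, by rw [M.symmetric]; exact h.2⟩
    obtain ⟨g, hg | hg⟩ := conj_of_eq h.1.symm h'.1 he
    · rw [hc.symm s t h, hc.conj t s s' t' hts h' ⟨g, hg.1, hg.2⟩, hc']
    · rw [hc.conj s t s' t' h h' ⟨g, hg.2, hg.1⟩, hc']
  · intro h1
    exact ⟨x, s, t, h, h1, RS_swap x t s⟩

lemma exists_rep {c : B → B → ℤˣ} (hc : IsSignChoice cs c) :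
    ∃ φ : WP M c →* Equiv.Perm (W × ZMod 2), φ (qq M c) = qmap W := by
  classical
  have hch : ∀ R : Set W, ∃ a, R ∈ XX cs c → Ext cs R a := by
    intro R
    by_cases hR : R ∈ XX cs c
    · obtain ⟨x, s, t, h, -, hRe⟩ := hR
      obtain ⟨a, ha⟩ := exists_ext (cs := cs) x h.1
      exact ⟨a, fun _ => hRe ▸ ha⟩
    · exact ⟨1, fun h => absurd h hR⟩
  choose a ha using hch
  have hX : ∀ R ∈ XX cs c, ∃ (x : W) (s t : B), s ≠ t ∧ M s t ≠ 0 ∧ R = RS cs x s t := by
    rintro R ⟨x, s, t, h, -, hRe⟩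
    exact ⟨x, s, t, h.1, h.2, hRe⟩
  have key : ∀ (s t : B), InM M s t → ∀ (x : W) (e : ZMod 2),
      ((pmap cs (XX cs c) a s * pmap cs (XX cs c) a t) ^ M s t) (x, e) =
        (x, e + if c s t = -1 then 1 else 0) := by
    intro s t h x e
    rw [pmap_pow]
    have hsum := sum_kap hX (fun R hR => ha R hR) x h.1.symm (by rw [M.symmetric]; exact h.2)
    rw [M.symmetric t s] at hsum
    rw [hsum]
    have h1 : ps cs x t s (2 * M s t) = x := by
      rw [ps, alt_mul_two, cs.simple_mul_simple_pow', mul_one]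
    rw [h1]
    by_cases hcc : c s t = -1
    · rw [if_pos hcc, if_pos ((mem_XX hc h).2 hcc)]
    · rw [if_neg hcc, if_neg (fun h2 => hcc ((mem_XX hc h).1 h2))]
  refine ⟨liftWP (pmap cs (XX cs c) a) (qmap W) (pmap_sq _ _) qmap_sq (qmap_comm _ _) ?_ ?_,
    liftWP_qq _ _ _ _ _ _ _⟩
  · intro s t h hcc
    ext1 ⟨x, e⟩
    rw [key s t h x e, if_neg (by rw [hcc]; decide), add_zero]
    rfl
  · intro s t h hcc
    ext1 ⟨x, e⟩
    rw [key s t h x e, if_pos hcc]
    rfl

/-- The central element is not trivial. -/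
theorem qq_ne_one {c : B → B → ℤˣ} (hc : IsSignChoice cs c) : qq M c ≠ 1 := by
  obtain ⟨φ, hφ⟩ := exists_rep hc
  intro h
  rw [h, map_one] at hφ
  have h1 := congrArg (fun f : Equiv.Perm (W × ZMod 2) => (f (1, 0)).2) hφ
  simp [qmap] at h1

end perm

section exact

variable {M : CoxeterMatrix B} (cs : CoxeterSystem M W)

/-- The projection `π : W' → W`. -/
noncomputable def piW (c : B → B → ℤˣ) : WP M c →* W :=
  liftWP cs.simple 1 cs.simple_mul_simple_self (one_mul 1) (fun s => by rw [one_mul, mul_one])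
    (fun s t _ _ => cs.simple_mul_simple_pow s t) (fun s t _ _ => cs.simple_mul_simple_pow s t)

@[simp] lemma piW_gen (c : B → B → ℤˣ) (s : B) : piW cs c (gen M c s) = cs.simple s :=
  liftWP_gen _ _ _ _ _ _ _ _

@[simp] lemma piW_qq (c : B → B → ℤˣ) : piW cs c (qq M c) = 1 := liftWP_qq _ _ _ _ _ _ _

lemma piW_surjective (c : B → B → ℤˣ) : Function.Surjective (piW cs c) := by
  rw [← MonoidHom.range_eq_top, eq_top_iff, ← cs.subgroup_closure_range_simple,
    Subgroup.closure_le]
  rintro _ ⟨i, rfl⟩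
  exact ⟨gen M c i, piW_gen cs c i⟩

lemma zp_normal (c : B → B → ℤˣ) : (Subgroup.zpowers (qq M c)).Normal := by
  constructor
  intro n hn g
  obtain ⟨k, rfl⟩ := Subgroup.mem_zpowers_iff.1 hn
  have h1 : g * qq M c * g⁻¹ = qq M c := by rw [← qq_central, mul_inv_cancel_right]
  rw [← conj_zpow, h1]
  exact Subgroup.zpow_mem _ (Subgroup.mem_zpowers _) _

lemma ker_le (c : B → B → ℤˣ) : (piW cs c).ker ≤ Subgroup.zpowers (qq M c) := by
  have := zp_normal (M := M) c
  set Z := Subgroup.zpowers (qq M c) with hZ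
  have hq : (QuotientGroup.mk' Z) (qq M c) = 1 := by
    rw [QuotientGroup.mk'_apply, QuotientGroup.eq_one_iff]
    exact Subgroup.mem_zpowers _
  have hlift : M.IsLiftable (fun s : B => (QuotientGroup.mk' Z) (gen M c s)) := by
    intro s t
    rw [← map_mul, ← map_pow]
    by_cases hst : s = t
    · subst hst
      rw [M.diagonal, pow_one, gen_sq, map_one]
    · by_cases h0 : M s t = 0
      · rw [h0, pow_zero, map_one]
      · rcases Int.units_eq_one_or (c s t) with h | h
        · rw [gen_pow_one ⟨hst, h0⟩ h, map_one]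
        · rw [gen_pow_neg ⟨hst, h0⟩ h, hq]
  have hcomp : (cs.lift ⟨_, hlift⟩).comp (piW cs c) = QuotientGroup.mk' Z := by
    apply WP_hom_ext
    · intro s
      rw [MonoidHom.comp_apply, piW_gen, cs.lift_apply_simple]
    · rw [MonoidHom.comp_apply, piW_qq, map_one, hq]
  intro w hw
  have h1 := DFunLike.congr_fun hcomp w
  rw [MonoidHom.comp_apply, (MonoidHom.mem_ker).1 hw, map_one] at h1
  rw [← QuotientGroup.eq_one_iff]
  exact h1.symm

lemma ker_eq (c : B → B → ℤˣ) : (piW cs c).ker = Subgroup.zpowers (qq M c) := by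
  apply le_antisymm (ker_le cs c)
  rw [Subgroup.zpowers_le, MonoidHom.mem_ker, piW_qq]

end exact

/-- **Q1, positive answer.** For every Coxeter group and every sign choice, `q ≠ 1` in `W'`, and
the sequence `1 → ℤ/2 → W' → W → 1` is exact: there are homomorphisms `ι : ℤ/2 → W'` and
`π : W' → W` with `ι(1) = q`, `π(s) = s`, `π(q) = 1`, `ι` injective, `im ι = ker π`, `π`
surjective; the kernel of `π` has two elements. No finiteness of the set of generators is needed. -/
theorem result {B : Type u} {W : Type v} [Group W] {M : CoxeterMatrix B}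
    (cs : CoxeterSystem M W) (c : B → B → ℤˣ) (hc : IsSignChoice cs c) :
    qq M c ≠ 1 ∧
    ∃ (ι : Multiplicative (ZMod 2) →* WP M c) (π : WP M c →* W),
      ι (Multiplicative.ofAdd 1) = qq M c ∧ (∀ s, π (gen M c s) = cs.simple s) ∧
      π (qq M c) = 1 ∧ Function.Injective ι ∧ ι.range = π.ker ∧ Function.Surjective π ∧
      Nat.card π.ker = 2 := by
  have hq := qq_ne_one hc
  have hord : orderOf (qq M c) = 2 := by
    apply orderOf_eq_prime _ hq
    rw [pow_two, qq_sq]
  have hz : ∀ z : Multiplicative (ZMod 2), z = 1 ∨ z = Multiplicative.ofAdd 1 := by decide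
  have g1 : (Multiplicative.ofAdd (1 : ZMod 2)) ≠ 1 := by decide
  have g2 : (Multiplicative.ofAdd (1 : ZMod 2)) * Multiplicative.ofAdd 1 = 1 := by decide
  let ι : Multiplicative (ZMod 2) →* WP M c :=
    { toFun := fun z => if z = 1 then 1 else qq M c
      map_one' := if_pos rfl
      map_mul' := by
        intro x y
        rcases hz x with rfl | rfl <;> rcases hz y with rfl | rfl
        · simp
        · rw [one_mul, if_pos rfl, one_mul]
        · rw [mul_one, if_pos rfl, mul_one]
        · rw [g2, if_pos rfl, if_neg g1, qq_sq] }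
  have hι : ∀ z, ι z = if z = 1 then 1 else qq M c := fun _ => rfl
  refine ⟨hq, ι, piW cs c, by rw [hι, if_neg g1], piW_gen cs c, piW_qq cs c, ?_, ?_,
    piW_surjective cs c, ?_⟩
  · rw [injective_iff_map_eq_one]
    intro z h
    rcases hz z with rfl | rfl
    · rfl
    · rw [hι, if_neg g1] at h
      exact absurd h hq
  · rw [ker_eq]
    apply le_antisymm
    · rintro _ ⟨z, rfl⟩
      rw [hι]
      split_ifs
      · exact Subgroup.one_mem _
      · exact Subgroup.mem_zpowers _
    · rw [Subgroup.zpowers_le]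
      exact ⟨Multiplicative.ofAdd 1, by rw [hι, if_neg g1]⟩
  · rw [ker_eq, Nat.card_zpowers, hord]

end Pool.Agent.Results.MP_07fa45_al.Exactness
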